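import Pool.Agent.T9h77.NF.Spec

/-!
# Linearly independent functions are independent on finitely many points (any set)
-/

set_option autoImplicit false

namespace Pool.Agent.T9h84.NF

open Finset Pool.Agent.T9h77.NF

theorem ptsG : PtsG := by
  classical
  intro Z S L _ φ h
  set s : Set (L → ℝ) := {v | ∃ t : Z, t ∈ S ∧ v = fun l => φ l t} with hs
  have hspan : Submodule.span ℝ s = ⊤ := by
    by_contra hne
    obtain ⟨f, hf0, hf⟩ := Submodule.exists_le_ker_of_lt_top _ (lt_top_iff_ne_top.2 hne)
    apply hf0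
    have h1 := h (fun l => f (Pi.single l 1)) (by
      intro t ht
      have h2 : f (fun l => φ l t) = 0 :=
        hf (Submodule.subset_span ⟨t, ht, rfl⟩)
      have h3 : (fun l => φ l t) = ∑ l, φ l t • (Pi.single l (1 : ℝ) : L → ℝ) := by
        funext l'
        simp [Finset.sum_apply, Pi.single_apply]
      rw [h3, map_sum] at h2
      rw [← h2]
      refine Finset.sum_congr rfl fun l _ => ?_
      rw [map_smul, smul_eq_mul, mul_comm])
    apply LinearMap.pi_ext'
    intro l
    ext
    simpa using congrFun h1 l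
  obtain ⟨b, hb, hb2, hli⟩ := exists_linearIndependent ℝ s
  rw [hspan] at hb2
  have hfin : Finite b := hli.finite
  have : Fintype b := Fintype.ofFinite b
  let B : Module.Basis b ℝ (L → ℝ) := Module.Basis.mk hli (by
    rw [Subtype.range_coe_subtype, Set.ofPred_mem_eq, hb2])
  have hcard : Fintype.card b = Fintype.card L := by
    rw [← Module.finrank_eq_card_basis B, Module.finrank_pi]
  have hch : ∀ β : b, ∃ t : Z, t ∈ S ∧ β.1 = fun l => φ l t := fun β => hb β.2
  choose τ hτ0 hτ using hch
  let eq := (Fintype.equivFin b).symm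
  refine ⟨Fintype.card b, fun j => τ (eq j),
    1 + ∑ l : L, ∑ β : b, |B.repr (Pi.single l 1) β|, hcard.le,
    fun j => hτ0 _, ?_, ?_⟩
  · have : 0 ≤ ∑ l : L, ∑ β : b, |B.repr (Pi.single l 1) β| :=
      Finset.sum_nonneg fun _ _ => Finset.sum_nonneg fun _ _ => abs_nonneg _
    linarith
  · intro v Bd hv l
    have hv' : ∀ β : b, |∑ l, β.1 l * v l| ≤ Bd := by
      intro β
      have h1 := hv (eq.symm β)
      simp only [Equiv.apply_symm_apply] at h1
      rw [hτ β]
      exact h1
    have hBd : 0 ≤ Bd := by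
      have hne : Nonempty b := by
        rw [← Fintype.card_pos_iff, hcard, Fintype.card_pos_iff]
        exact ⟨l⟩
      exact (abs_nonneg _).trans (hv' hne.some)
    have h2 : (Pi.single l (1 : ℝ) : L → ℝ) = ∑ β : b, B.repr (Pi.single l 1) β • β.1 := by
      conv_lhs => rw [← B.sum_repr (Pi.single l 1)]
      refine Finset.sum_congr rfl fun β _ => ?_
      rw [Module.Basis.mk_apply]
    have h3 : v l = ∑ β : b, B.repr (Pi.single l 1) β * ∑ l', β.1 l' * v l' := by
      have h4 : v l = ∑ l', (Pi.single l (1 : ℝ) : L → ℝ) l' * v l' := by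
        simp [Pi.single_apply]
      rw [h4]
      conv_lhs => rw [h2]
      simp only [Finset.sum_apply, Pi.smul_apply, smul_eq_mul, Finset.sum_mul, Finset.mul_sum]
      rw [Finset.sum_comm]
      refine Finset.sum_congr rfl fun β _ => Finset.sum_congr rfl fun l' _ => ?_
      ring
    rw [h3]
    calc |∑ β : b, B.repr (Pi.single l 1) β * ∑ l', β.1 l' * v l'|
        ≤ ∑ β : b, |B.repr (Pi.single l 1) β * ∑ l', β.1 l' * v l'| :=
          Finset.abs_sum_le_sum_abs _ _
      _ ≤ ∑ β : b, |B.repr (Pi.single l 1) β| * Bd := by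
          refine Finset.sum_le_sum fun β _ => ?_
          rw [abs_mul]
          exact mul_le_mul_of_nonneg_left (hv' β) (abs_nonneg _)
      _ = (∑ β : b, |B.repr (Pi.single l 1) β|) * Bd := by rw [Finset.sum_mul]
      _ ≤ (1 + ∑ l : L, ∑ β : b, |B.repr (Pi.single l 1) β|) * Bd := by
          refine mul_le_mul_of_nonneg_right ?_ hBd
          have h5 : ∑ β : b, |B.repr (Pi.single l 1) β| ≤
              ∑ l : L, ∑ β : b, |B.repr (Pi.single l 1) β| :=
            Finset.single_le_sum (f := fun l : L => ∑ β : b, |B.repr (Pi.single l 1) β|)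
              (fun _ _ => Finset.sum_nonneg fun _ _ => abs_nonneg _) (Finset.mem_univ l)
          linarith

end Pool.Agent.T9h84.NF
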