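import Pool.Agent.T9h77.NF.Spec

/-!
# `SpanPerNOf`
-/

set_option autoImplicit false

namespace Pool.Agent.T9h84.NF

open Finset NumberField Pool.Agent.T9h77.NF

theorem spanPerNOf (K : Type) [Field K] [NumberField K] : SpanPerNOf K := by
  classical
  intro hAN hLI hLC m N Q P hQP
  have hsum : ∀ (V : Type) [AddCommMonoid V] (f : InfinitePlace K → ℕ → V),
      ∑ i : (Σ v : InfinitePlace K, {n // n ∈ wts K N v}), f i.1 i.2.1 =
        ∑ v, ∑ n ∈ wts K N v, f v n := by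
    intro V _ f
    rw [Fintype.sum_sigma]
    refine Finset.sum_congr rfl fun v _ => ?_
    exact Finset.sum_coe_sort (wts K N v) (fun n => f v n)
  have hwts : ∀ (v : InfinitePlace K) (n : ℕ), n ∈ wts K N v → 2 ≤ n := by
    intro v n hn
    unfold wts at hn
    exact (mem_Icc.1 (mem_filter.1 hn).1).1
  have h := hAN m (Σ v : InfinitePlace K, {n // n ∈ wts K N v}) Q
    (fun i μ => P i.1 i.2.1 μ) (fun i z => Lcv i.2.1 (z i.1)) (by
    intro i
    have h1 := hLC i.2.1 (hwts i.1 _ i.2.2)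
    refine h1.comp (continuous_apply i.1).continuousOn ?_
    intro z hz
    exact ⟨(hz i.1).1, (hz i.1).2.1⟩) (by
    intro m' a₀ a₁ b hab
    obtain ⟨b', hb'def⟩ : ∃ b' : InfinitePlace K → ℕ → (InfinitePlace K → Fin (m' + 1)) → ℝ,
      b' = fun v n => if hn : n ∈ wts K N v then b ⟨v, ⟨n, hn⟩⟩ else 0 := ⟨_, rfl⟩
    have hb' : ∀ i : (Σ v : InfinitePlace K, {n // n ∈ wts K N v}), b' i.1 i.2.1 = b i := by
      rintro ⟨v, n, hn⟩
      rw [hb'def]
      exact dif_pos hn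
    obtain ⟨h1, h2, h3⟩ := hLI N m' a₀ a₁ b' (by
      intro z hz
      rw [← hab z hz]
      congr 1
      rw [← hsum ℝ (fun v n => ∑ k, b' v n k * mon k z * Lcv n (z v))]
      refine Finset.sum_congr rfl fun i _ => ?_
      rw [hb'])
    refine ⟨h1, h2, ?_⟩
    funext i
    rw [← hb' i]
    exact h3 i.1 i.2.1 i.2.2) (by
    intro x hx
    rw [← hQP x hx]
    congr 1
    exact hsum ℝ (fun v n => (∑ μ, P v n μ (fun _ => cr x)) * Lcv n (emb x v)))
  refine ⟨h.1, ?_⟩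
  intro v n hn μ s
  exact h.2 ⟨v, ⟨n, hn⟩⟩ μ s

end Pool.Agent.T9h84.NF
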